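import Pool.Agent.L7h74.HS.Stm

/-!
Project HS (helper74, MP_339d31_lc), part EXI: every formula has an interpretation. Explicit dependent
products and path objects of simplicial sets.
-/

set_option autoImplicit false

namespace Pool.Agent.L7h34.HS

open CategoryTheory Opposite Limits MonoidalCategory
open Pool.Agent.L7h74.HS

/-! ### Elements of pullbacks -/

section Pb

variable {A B : SSet.{0}} (f : A ⟶ B) (T : Over B)

theorem pb_isPullback (m : SimplexCategoryᵒᵖ) :
    IsPullback ((pullback.fst T.hom f).app m) ((pullback.snd T.hom f).app m)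
      (T.hom.app m) (f.app m) :=
  (IsPullback.of_hasPullback T.hom f).map ((evaluation _ _).obj m)

theorem pb_ext {m : SimplexCategoryᵒᵖ} (x y : (pullback T.hom f).obj m)
    (h1 : (pullback.fst T.hom f).app m x = (pullback.fst T.hom f).app m y)
    (h2 : (pullback.snd T.hom f).app m x = (pullback.snd T.hom f).app m y) : x = y :=
  ((Types.isPullback_iff _ _ _ _).1 (pb_isPullback f T m)).2.1 x y ⟨h1, h2⟩

theorem pb_exists {m : SimplexCategoryᵒᵖ} (τ : T.left.obj m) (a : A.obj m)
    (h : T.hom.app m τ = f.app m a) :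
    ∃ x : (pullback T.hom f).obj m, (pullback.fst T.hom f).app m x = τ ∧
      (pullback.snd T.hom f).app m x = a :=
  ((Types.isPullback_iff _ _ _ _).1 (pb_isPullback f T m)).2.2 τ a h

theorem pb_w {m : SimplexCategoryᵒᵖ} (x : (pullback T.hom f).obj m) :
    T.hom.app m ((pullback.fst T.hom f).app m x) = f.app m ((pullback.snd T.hom f).app m x) :=
  ConcreteCategory.congr_hom (pb_isPullback f T m).w x

/-- the element with given components -/
noncomputable def mkp {m : SimplexCategoryᵒᵖ} (τ : T.left.obj m) (a : A.obj m)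
    (h : T.hom.app m τ = f.app m a) : (pullback T.hom f).obj m :=
  (pb_exists f T τ a h).choose

theorem mkp_fst {m : SimplexCategoryᵒᵖ} (τ : T.left.obj m) (a : A.obj m)
    (h : T.hom.app m τ = f.app m a) : (pullback.fst T.hom f).app m (mkp f T τ a h) = τ :=
  (pb_exists f T τ a h).choose_spec.1

theorem mkp_snd {m : SimplexCategoryᵒᵖ} (τ : T.left.obj m) (a : A.obj m)
    (h : T.hom.app m τ = f.app m a) : (pullback.snd T.hom f).app m (mkp f T τ a h) = a :=
  (pb_exists f T τ a h).choose_spec.2

theorem nat_el {P Q : SSet.{0}} (g : P ⟶ Q) {m k : SimplexCategoryᵒᵖ} (t : m ⟶ k) (x : P.obj m) :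
    g.app k (P.map t x) = Q.map t (g.app m x) :=
  ConcreteCategory.congr_hom (g.naturality t) x

theorem map_id_el (P : SSet.{0}) {m : SimplexCategoryᵒᵖ} (x : P.obj m) : P.map (𝟙 m) x = x := by
  rw [P.map_id]; rfl

theorem map_comp_el (P : SSet.{0}) {m k l : SimplexCategoryᵒᵖ} (t : m ⟶ k) (r : k ⟶ l)
    (x : P.obj m) : P.map (t ≫ r) x = P.map r (P.map t x) := by
  rw [P.map_comp]; rfl

theorem map_mkp {m k : SimplexCategoryᵒᵖ} (t : m ⟶ k) (τ : T.left.obj m) (a : A.obj m)
    (h : T.hom.app m τ = f.app m a) (h' : T.hom.app k (T.left.map t τ) = f.app k (A.map t a)) :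
    (pullback T.hom f).map t (mkp f T τ a h) = mkp f T (T.left.map t τ) (A.map t a) h' := by
  apply pb_ext
  · rw [nat_el, mkp_fst, mkp_fst]
  · rw [nat_el, mkp_snd, mkp_snd]

end Pb

/-! ### Dependent products -/

section Pi

variable {A B : SSet.{0}} (f : A ⟶ B) (Y : Over A)

/-- a simplex of the dependent product -/
structure PiEl (m : SimplexCategoryᵒᵖ) : Type where
  /-- the base point -/
  b : B.obj m
  /-- the section -/
  s : ∀ (k : SimplexCategoryᵒᵖ) (t : m ⟶ k) (a : A.obj k), f.app k a = B.map t b → Y.left.obj k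
  ov : ∀ k t a h, Y.hom.app k (s k t a h) = a
  nat : ∀ k t a h k' (r : k ⟶ k') h', Y.left.map r (s k t a h) = s k' (t ≫ r) (A.map r a) h'

variable {f Y}

theorem PiEl.ext' {m : SimplexCategoryᵒᵖ} {x y : PiEl f Y m} (hb : x.b = y.b)
    (hs : ∀ k t a h h', x.s k t a h = y.s k t a h') : x = y := by
  obtain ⟨b, s, o, n⟩ := x
  obtain ⟨b', s', o', n'⟩ := y
  simp only at hb
  subst hb
  have : s = s' := by
    funext k t a h
    exact hs k t a h h
  subst this
  rfl

theorem PiEl.s_congr {m : SimplexCategoryᵒᵖ} (x : PiEl f Y m) {k : SimplexCategoryᵒᵖ}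
    {t t' : m ⟶ k} {a a' : A.obj k} (ht : t = t') (ha : a = a') (h : f.app k a = B.map t x.b)
    (h' : f.app k a' = B.map t' x.b) : x.s k t a h = x.s k t' a' h' := by
  subst ht ha
  rfl

theorem PiEl.s_congr2 {m : SimplexCategoryᵒᵖ} {x y : PiEl f Y m} (hxy : x = y)
    {k : SimplexCategoryᵒᵖ}
    {t t' : m ⟶ k} {a a' : A.obj k} (ht : t = t') (ha : a = a') (h : f.app k a = B.map t x.b)
    (h' : f.app k a' = B.map t' y.b) : x.s k t a h = y.s k t' a' h' := by
  subst ht ha hxy
  rfl

/-- restriction of a simplex of the dependent product -/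
def PiEl.res {m m' : SimplexCategoryᵒᵖ} (u : m ⟶ m') (x : PiEl f Y m) : PiEl f Y m' where
  b := B.map u x.b
  s k t a h := x.s k (u ≫ t) a (by rw [h, map_comp_el])
  ov k t a h := x.ov _ _ _ _
  nat k t a h k' r h' := by
    have h2 : f.app k' (A.map r a) = B.map ((u ≫ t) ≫ r) x.b := by
      rw [h', Category.assoc, map_comp_el B u]
    exact (x.nat k (u ≫ t) a _ k' r h2).trans (x.s_congr (Category.assoc _ _ _) rfl _ _)

variable (f Y)

/-- the dependent product -/
def PiS : SSet.{0} where
  obj m := PiEl f Y m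
  map u := ↾ fun x => x.res u
  map_id m := by
    ext x
    refine PiEl.ext' (map_id_el B _) fun k t a h h' => ?_
    exact x.s_congr (Category.id_comp _) rfl _ _
  map_comp u v := by
    ext x
    refine PiEl.ext' (map_comp_el B _ _ _) fun k t a h h' => ?_
    exact x.s_congr (Category.assoc _ _ _) rfl _ _

/-- the dependent product over the base -/
def PiO : Over B := Over.mk (Y := PiS f Y)
  { app := fun m => ↾ fun x => x.b
    naturality := fun m m' u => by
      ext x
      rfl }

/-- the value of the universal map -/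
noncomputable def evf (m : SimplexCategoryᵒᵖ) (x : (pullback (PiO f Y).hom f).obj m) :
    Y.left.obj m :=
  PiEl.s ((pullback.fst (PiO f Y).hom f).app m x) m (𝟙 m)
    ((pullback.snd (PiO f Y).hom f).app m x)
    (by rw [map_id_el]; exact (pb_w f (PiO f Y) x).symm)

theorem evf_nat {m m' : SimplexCategoryᵒᵖ} (u : m ⟶ m')
    (x : (pullback (PiO f Y).hom f).obj m) :
    evf f Y m' ((pullback (PiO f Y).hom f).map u x) = Y.left.map u (evf f Y m x) := by
  have h1 : (pullback.fst (PiO f Y).hom f).app m' ((pullback (PiO f Y).hom f).map u x) =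
      PiEl.res u ((pullback.fst (PiO f Y).hom f).app m x) :=
    nat_el (pullback.fst (PiO f Y).hom f) u x
  have h2 := nat_el (pullback.snd (PiO f Y).hom f) u x
  have hx := pb_w f (PiO f Y) x
  have e1 : f.app m' (A.map u ((pullback.snd (PiO f Y).hom f).app m x)) =
      B.map (𝟙 m') (B.map u (PiEl.b ((pullback.fst (PiO f Y).hom f).app m x))) := by
    rw [map_id_el, nat_el, ← hx]
    rfl
  have e2 : f.app m' (A.map u ((pullback.snd (PiO f Y).hom f).app m x)) =
      B.map (𝟙 m ≫ u) (PiEl.b ((pullback.fst (PiO f Y).hom f).app m x)) := by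
    rw [Category.id_comp, nat_el, ← hx]
    rfl
  refine (PiEl.s_congr2 h1 rfl h2 _ e1).trans ?_
  refine Eq.trans ?_ (PiEl.nat ((pullback.fst (PiO f Y).hom f).app m x) m (𝟙 m) _ _ m' u e2).symm
  exact PiEl.s_congr _ ((Category.comp_id _).trans (Category.id_comp _).symm) rfl _ _

/-- the universal map -/
noncomputable def evP : (Over.pullback f).obj (PiO f Y) ⟶ Y :=
  Over.homMk
    (U := (Over.pullback f).obj (PiO f Y))
    { app := fun m => ↾ fun (x : (pullback (PiO f Y).hom f).obj m) => evf f Y m x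
      naturality := fun m m' u => by
        ext x
        exact evf_nat f Y u x }
    (by
      ext m x
      exact PiEl.ov _ _ _ _ _)

theorem pbmap_fst {T T' : Over B} (h : T ⟶ T') {m : SimplexCategoryᵒᵖ}
    (x : (pullback T.hom f).obj m) :
    (pullback.fst T'.hom f).app m (((Over.pullback f).map h).left.app m x) =
      h.left.app m ((pullback.fst T.hom f).app m x) := by
  have h1 : ((Over.pullback f).map h).left ≫ pullback.fst T'.hom f =
      pullback.fst T.hom f ≫ h.left := pullback.lift_fst _ _ _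
  exact ConcreteCategory.congr_hom (congr_app h1 m) x

theorem pbmap_snd {T T' : Over B} (h : T ⟶ T') {m : SimplexCategoryᵒᵖ}
    (x : (pullback T.hom f).obj m) :
    (pullback.snd T'.hom f).app m (((Over.pullback f).map h).left.app m x) =
      (pullback.snd T.hom f).app m x := by
  have h1 : ((Over.pullback f).map h).left ≫ pullback.snd T'.hom f =
      pullback.snd T.hom f := pullback.lift_snd _ _ _
  exact ConcreteCategory.congr_hom (congr_app h1 m) x

theorem hom_el {T T' : Over B} (h : T ⟶ T') {m : SimplexCategoryᵒᵖ} (x : T.left.obj m) :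
    T'.hom.app m (h.left.app m x) = T.hom.app m x :=
  ConcreteCategory.congr_hom (congr_app (Over.w h) m) x

/-- the transposed map -/
noncomputable def trP (T : Over B) (g : (Over.pullback f).obj T ⟶ Y) (m : SimplexCategoryᵒᵖ)
    (τ : T.left.obj m) : PiEl f Y m where
  b := T.hom.app m τ
  s k t a h := g.left.app k (mkp f T (T.left.map t τ) a (by rw [nat_el, h]))
  ov k t a h := by
    have h1 := hom_el g (mkp f T (T.left.map t τ) a (by rw [nat_el, h]))
    exact h1.trans (mkp_snd f T _ _ _)
  nat k t a h k' r h' := by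
    rw [← nat_el]
    have h1 : (pullback T.hom f).map r (mkp f T (T.left.map t τ) a (by rw [nat_el, h])) =
        mkp f T (T.left.map (t ≫ r) τ) (A.map r a) (by rw [nat_el, h']) := by
      apply pb_ext
      · rw [nat_el, mkp_fst, mkp_fst, map_comp_el]
      · rw [nat_el, mkp_snd, mkp_snd]
    exact congrArg _ h1

theorem trP_nat (T : Over B) (g : (Over.pullback f).obj T ⟶ Y) {m m' : SimplexCategoryᵒᵖ}
    (u : m ⟶ m') (τ : T.left.obj m) :
    trP f Y T g m' (T.left.map u τ) = (trP f Y T g m τ).res u := by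
  refine PiEl.ext' (nat_el _ _ _) fun k t a h h' => ?_
  have h1 : mkp f T (T.left.map t (T.left.map u τ)) a (by rw [nat_el]; exact h.symm) =
      mkp f T (T.left.map (u ≫ t) τ) a (by
        rw [map_comp_el, nat_el]; exact h.symm) := by
    apply pb_ext
    · rw [mkp_fst, mkp_fst, map_comp_el]
    · rw [mkp_snd, mkp_snd]
  exact congrArg _ h1

/-- the transposed map -/
noncomputable def trO (T : Over B) (g : (Over.pullback f).obj T ⟶ Y) : T ⟶ PiO f Y :=
  Over.homMk
    { app := fun m => ↾ fun τ => trP f Y T g m τ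
      naturality := fun m m' u => by
        ext τ
        exact trP_nat f Y T g u τ }
    (by
      ext m τ
      rfl)

theorem pi_univ (T : Over B) (g : (Over.pullback f).obj T ⟶ Y) :
    ∃! h : T ⟶ PiO f Y, (Over.pullback f).map h ≫ evP f Y = g := by
  refine ⟨trO f Y T g, ?_, ?_⟩
  · ext m x
    have h1 := pbmap_fst f (trO f Y T g) x
    have h2 := pbmap_snd f (trO f Y T g) x
    change evf f Y m (((Over.pullback f).map (trO f Y T g)).left.app m x) = g.left.app m x
    unfold evf
    refine (PiEl.s_congr2 h1 rfl h2 _ ?_).trans ?_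
    · rw [map_id_el]
      exact (pb_w f T x).symm
    · change g.left.app m (mkp f T (T.left.map (𝟙 m) ((pullback.fst T.hom f).app m x)) _ _) = _
      refine congrArg _ (pb_ext f T _ _ ?_ ?_)
      · rw [mkp_fst, map_id_el]
      · rw [mkp_snd]
  · intro h hh
    ext m τ
    have hb : T.hom.app m τ = PiEl.b (h.left.app m τ) := (hom_el h τ).symm
    refine PiEl.ext' hb.symm fun k t a h1 h2 => ?_
    change _ = g.left.app k (mkp f T (T.left.map t τ) a _)
    have e1 : g.left.app k (mkp f T (T.left.map t τ) a (by rw [nat_el]; exact h2.symm)) =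
        evf f Y k (((Over.pullback f).map h).left.app k
          (mkp f T (T.left.map t τ) a (by rw [nat_el]; exact h2.symm))) := by
      rw [← hh]
      rfl
    rw [e1]
    have a1 : (pullback.fst (PiO f Y).hom f).app k (((Over.pullback f).map h).left.app k
        (mkp f T (T.left.map t τ) a (by rw [nat_el]; exact h2.symm))) =
          PiEl.res t (h.left.app m τ) := by
      rw [pbmap_fst, mkp_fst]
      exact nat_el h.left t τ
    have a2 : (pullback.snd (PiO f Y).hom f).app k (((Over.pullback f).map h).left.app k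
        (mkp f T (T.left.map t τ) a (by rw [nat_el]; exact h2.symm))) = a := by
      rw [pbmap_snd, mkp_snd]
    unfold evf
    symm
    refine (PiEl.s_congr2 a1 rfl a2 _ ?_).trans ?_
    · rw [map_id_el]
      exact h1
    · exact PiEl.s_congr _ (Category.comp_id _) rfl _ _

theorem exp_univ (A' B' : Over B) :
    ∃ (E : Over B) (ev : (Over.map A'.hom).obj ((Over.pullback A'.hom).obj E) ⟶ B'),
      ∀ (T : Over B) (g : (Over.map A'.hom).obj ((Over.pullback A'.hom).obj T) ⟶ B'),
        ∃! h : T ⟶ E, (Over.map A'.hom).map ((Over.pullback A'.hom).map h) ≫ ev = g := by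
  set adj := Over.mapPullbackAdj A'.hom
  set Y := (Over.pullback A'.hom).obj B'
  refine ⟨PiO A'.hom Y, (Over.map A'.hom).map (evP A'.hom Y) ≫ adj.counit.app B', fun T g => ?_⟩
  obtain ⟨h, h1, h2⟩ := pi_univ A'.hom Y T (adj.homEquiv _ _ g)
  have key : ∀ h : T ⟶ PiO A'.hom Y,
      (Over.map A'.hom).map ((Over.pullback A'.hom).map h) ≫
        ((Over.map A'.hom).map (evP A'.hom Y) ≫ adj.counit.app B') =
      (adj.homEquiv _ _).symm ((Over.pullback A'.hom).map h ≫ evP A'.hom Y) := by
    intro h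
    rw [Adjunction.homEquiv_counit, Functor.map_comp, Category.assoc]
  refine ⟨h, ?_, fun h' hh' => h2 h' ?_⟩
  · simp only
    rw [key, h1, Equiv.symm_apply_apply]
  · simp only at hh' ⊢
    rw [key] at hh'
    rw [← hh', Equiv.apply_symm_apply]

end Pi

/-! ### The object of the homotopies -/

section Path

open SSet

/-- the constant simplex at the vertex `v` of `Δ[1]` -/
noncomputable def cst (v : Fin 2) (k : SimplexCategoryᵒᵖ) :
    (SSet.stdSimplex.obj (SimplexCategory.mk 1) : SSet.{0}).obj k :=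
  (SSet.stdSimplex.obj (SimplexCategory.mk 1) : SSet.{0}).map
    ((unop k).const (SimplexCategory.mk 0) 0).op (SSet.stdSimplex.obj₀Equiv.symm v)

/-- the constructor for homotopies -/
noncomputable def mkH {Z X : SSet.{0}} {f g : Z ⟶ X}
    (h : Z ⊗ (SSet.stdSimplex.obj (SimplexCategory.mk 1) : SSet.{0}) ⟶ X)
    (h0 : SSet.ι₀ ≫ h = f) (h1 : SSet.ι₁ ≫ h = g) : SSet.Homotopy f g where
  h := h
  h₀ := h0
  h₁ := h1
  rel := by
    ext m ⟨x, e⟩
    exact x.2.elim

variable (X : SSet.{0}) {n : ℕ} (i j : Fin n)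

/-- a simplex of the object of the homotopies -/
structure EqEl (m : SimplexCategoryᵒᵖ) : Type where
  /-- the base point -/
  x : Fin n → X.obj m
  /-- the homotopy -/
  H : ∀ (k : SimplexCategoryᵒᵖ) (_ : m ⟶ k)
    (_ : (SSet.stdSimplex.obj (SimplexCategory.mk 1) : SSet.{0}).obj k), X.obj k
  nat : ∀ k t e k' (r : k ⟶ k'), X.map r (H k t e) =
    H k' (t ≫ r) ((SSet.stdSimplex.obj (SimplexCategory.mk 1) : SSet.{0}).map r e)
  h0 : ∀ k t, H k t (cst 0 k) = X.map t (x i)
  h1 : ∀ k t, H k t (cst 1 k) = X.map t (x j)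

variable {X i j}

theorem EqEl.ext' {m : SimplexCategoryᵒᵖ} {x y : EqEl X i j m} (hb : ∀ l, x.x l = y.x l)
    (hs : ∀ k t e, x.H k t e = y.H k t e) : x = y := by
  obtain ⟨b, s, o, n, r⟩ := x
  obtain ⟨b', s', o', n', r'⟩ := y
  have e1 : b = b' := funext hb
  have e2 : s = s' := by
    funext k t a
    exact hs k t a
  subst e1 e2
  rfl

/-- restriction -/
noncomputable def EqEl.res {m m' : SimplexCategoryᵒᵖ} (u : m ⟶ m') (z : EqEl X i j m) :
    EqEl X i j m' where
  x l := X.map u (z.x l)
  H k t e := z.H k (u ≫ t) e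
  nat k t e k' r := by
    rw [z.nat, Category.assoc]
  h0 k t := by rw [z.h0, map_comp_el]
  h1 k t := by rw [z.h1, map_comp_el]

variable (X i j)

/-- the object of the homotopies -/
noncomputable def EqS : SSet.{0} where
  obj m := EqEl X i j m
  map u := ↾ fun z => z.res u
  map_id m := by
    ext z
    refine EqEl.ext' (fun l => map_id_el X _) fun k t e => ?_
    change z.H k (𝟙 m ≫ t) e = z.H k t e
    rw [Category.id_comp]
  map_comp u v := by
    ext z
    refine EqEl.ext' (fun l => map_comp_el X _ _ _) fun k t e => ?_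
    change z.H k ((u ≫ v) ≫ t) e = z.H k (u ≫ v ≫ t) e
    rw [Category.assoc]

/-- the object of the homotopies over the power of `X` -/
noncomputable def EqO : Over (pw X n) := Over.mk (Y := EqS X i j)
  { app := fun m => ↾ fun z => z.x
    naturality := fun m m' u => by
      ext z
      rfl }

/-- the universal homotopy as a map -/
noncomputable def evH :
    (EqO X i j).left ⊗ (SSet.stdSimplex.obj (SimplexCategory.mk 1) : SSet.{0}) ⟶ X where
  app m := ↾ fun z => EqEl.H z.1 m (𝟙 m) z.2
  naturality m m' u := by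
    ext z
    change EqEl.H (EqEl.res u z.1) m' (𝟙 m')
      ((SSet.stdSimplex.obj (SimplexCategory.mk 1) : SSet.{0}).map u z.2) =
        X.map u (EqEl.H z.1 m (𝟙 m) z.2)
    refine Eq.trans ?_ (EqEl.nat z.1 m (𝟙 m) z.2 m' u).symm
    change EqEl.H z.1 m' (u ≫ 𝟙 m') _ = _
    rw [Category.comp_id, Category.id_comp]

/-- the universal homotopy -/
noncomputable def HH : SSet.Homotopy ((EqO X i j).hom ≫ pr X i) ((EqO X i j).hom ≫ pr X j) :=
  mkH (evH X i j)
    (by
      ext m z
      exact (EqEl.h0 z m (𝟙 m)).trans (map_id_el X _))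
    (by
      ext m z
      exact (EqEl.h1 z m (𝟙 m)).trans (map_id_el X _))

/-- the transposed map -/
noncomputable def trH (T : Over (pw X n)) (G : SSet.Homotopy (T.hom ≫ pr X i) (T.hom ≫ pr X j))
    (m : SimplexCategoryᵒᵖ) (τ : T.left.obj m) : EqEl X i j m where
  x := T.hom.app m τ
  H k t e := G.h.app k (T.left.map t τ, e)
  nat k t e k' r := by
    have h1 := nat_el G.h r (T.left.map t τ, e)
    rw [map_comp_el T.left]
    exact h1.symm
  h0 k t := by
    have h1 := ConcreteCategory.congr_hom (congr_app G.h₀ k) (T.left.map t τ)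
    have h2 := nat_el (T.hom ≫ pr X i) t τ
    exact h1.trans h2
  h1 k t := by
    have h1 := ConcreteCategory.congr_hom (congr_app G.h₁ k) (T.left.map t τ)
    have h2 := nat_el (T.hom ≫ pr X j) t τ
    exact h1.trans h2

/-- the transposed map -/
noncomputable def trHO (T : Over (pw X n)) (G : SSet.Homotopy (T.hom ≫ pr X i) (T.hom ≫ pr X j)) :
    T ⟶ EqO X i j :=
  Over.homMk
    { app := fun m => ↾ fun τ => trH X i j T G m τ
      naturality := fun m m' u => by
        ext τ
        change trH X i j T G m' (T.left.map u τ) = (trH X i j T G m τ).res u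
        refine EqEl.ext' (fun l => ?_) fun k t e => ?_
        · exact nat_el (T.hom ≫ pr X l) u τ
        · change G.h.app k (T.left.map t (T.left.map u τ), e) =
            G.h.app k (T.left.map (u ≫ t) τ, e)
          rw [map_comp_el] }
    (by
      ext m τ
      rfl)

theorem eq_univ (T : Over (pw X n)) (G : SSet.Homotopy (T.hom ≫ pr X i) (T.hom ≫ pr X j)) :
    ∃! h : T ⟶ EqO X i j, (h.left ▷ (SSet.stdSimplex.obj (SimplexCategory.mk 1) : SSet.{0})) ≫
      (HH X i j).h = G.h := by
  refine ⟨trHO X i j T G, ?_, ?_⟩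
  · ext m ⟨τ, e⟩
    change G.h.app m (T.left.map (𝟙 m) τ, e) = G.h.app m (τ, e)
    rw [map_id_el]
  · intro h hh
    ext m τ
    refine EqEl.ext' (fun l => ?_) fun k t e => ?_
    · exact congrFun (hom_el h τ) l
    · change _ = G.h.app k (T.left.map t τ, e)
      rw [← hh]
      have h1 : h.left.app k (T.left.map t τ) = EqEl.res t (h.left.app m τ) :=
        nat_el h.left t τ
      change _ = EqEl.H (h.left.app k (T.left.map t τ)) k (𝟙 k) e
      rw [h1]
      change _ = EqEl.H (h.left.app m τ) k (t ≫ 𝟙 k) e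
      rw [Category.comp_id]
      rfl

end Path

/-! ### The theorem -/

theorem s_EXI : S_EXI := by
  intro X n φ
  induction φ with
  | top => exact ⟨Over.mk (𝟙 _), ⟨Over.mkIdTerminal⟩⟩
  | bot => exact ⟨⊥_ _, ⟨initialIsInitial⟩⟩
  | eq i j => exact ⟨EqO X i j, HH X i j, eq_univ X i j⟩
  | and φ ψ h1 h2 =>
    obtain ⟨A, hA⟩ := h1
    obtain ⟨B, hB⟩ := h2
    exact ⟨A ⨯ B, A, B, hA, hB, prod.fst, prod.snd, ⟨prodIsProd A B⟩⟩
  | or φ ψ h1 h2 =>
    obtain ⟨A, hA⟩ := h1
    obtain ⟨B, hB⟩ := h2
    exact ⟨A ⨿ B, A, B, hA, hB, coprod.inl, coprod.inr, ⟨coprodIsCoprod A B⟩⟩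
  | imp φ ψ h1 h2 =>
    obtain ⟨A, hA⟩ := h1
    obtain ⟨B, hB⟩ := h2
    obtain ⟨E, ev, hE⟩ := exp_univ A B
    exact ⟨E, A, B, hA, hB, ev, hE⟩
  | all φ h1 =>
    obtain ⟨A, hA⟩ := h1
    exact ⟨PiO (prn X _) A, A, hA, evP (prn X _) A, pi_univ (prn X _) A⟩
  | ex φ h1 =>
    obtain ⟨A, hA⟩ := h1
    exact ⟨_, A, hA, ⟨Iso.refl _⟩⟩

end Pool.Agent.L7h34.HS
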