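import Pool.Agent.L7h75.HS.Rep

/-!
Project HS (helper74, MP_339d31_lc), parts SC0, SC1: a space of type `K(F₂, 1)` is not simply
connected, a space of type `K(F₂, 2)` is simply connected.
-/

set_option autoImplicit false

namespace Pool.Agent.L7h34.HS

open CategoryTheory Opposite Limits MonoidalCategory
open Pool.Agent.L7h74.HS

section Sing

variable {X : Type} [TopologicalSpace X]

/-- singular simplices as continuous maps -/
noncomputable def toC {m : SimplexCategoryᵒᵖ} (z : (Sg X).obj m) :
    C(stdSimplex ℝ (Fin (m.unop.len + 1)), X) :=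
  TopCat.toSSetObjEquiv (TopCat.of X) m z

/-- continuous maps as singular simplices -/
noncomputable def ofC {m : SimplexCategoryᵒᵖ} (z : C(stdSimplex ℝ (Fin (m.unop.len + 1)), X)) :
    (Sg X).obj m :=
  (TopCat.toSSetObjEquiv (TopCat.of X) m).symm z

theorem toC_ofC {m : SimplexCategoryᵒᵖ} (z : C(stdSimplex ℝ (Fin (m.unop.len + 1)), X)) :
    toC (ofC z) = z := Equiv.apply_symm_apply _ _

theorem ofC_toC {m : SimplexCategoryᵒᵖ} (z : (Sg X).obj m) :
    ofC (toC z) = z := Equiv.symm_apply_apply _ _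

theorem toC_map {m n : SimplexCategoryᵒᵖ} (f : m ⟶ n) (z : (Sg X).obj m)
    (a : stdSimplex ℝ (Fin (n.unop.len + 1))) :
    toC ((Sg X).map f z) a = toC z (stdSimplex.map f.unop a) := rfl

theorem toC_ext {m : SimplexCategoryᵒᵖ} {z z' : (Sg X).obj m} (h : ∀ a, toC z a = toC z' a) :
    z = z' := by
  rw [← ofC_toC z, ← ofC_toC z']
  congr 1
  ext a
  exact h a

theorem map_apply {X Y : Type} [Fintype X] [Fintype Y] [DecidableEq Y] (f : X → Y)
    (a : stdSimplex ℝ X) (y : Y) :
    stdSimplex.map f a y = ∑ x with f x = y, a x := by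
  rw [stdSimplex.map_coe, FunOnFinite.linearMap_apply_apply]

theorem map_zero_of {X Y : Type} [Fintype X] [Fintype Y] (f : X → Y)
    (a : stdSimplex ℝ X) (y : Y) (h : ∀ x, f x ≠ y) :
    stdSimplex.map f a y = 0 := by
  classical
  rw [map_apply]
  apply Finset.sum_eq_zero
  intro x hx
  exact absurd (Finset.mem_filter.1 hx).2 (h x)

/-- the map of the boundary given by a function on the topological boundary -/
noncomputable def bdMap {n : ℕ} (φ : stdSimplex ℝ (Fin (n + 1)) → X)
    (hφ : ∀ (m : SimplexCategory) (s : m ⟶ SimplexCategory.mk n), (∃ j, ∀ i, s i ≠ j) →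
      Continuous fun a : stdSimplex ℝ (Fin (m.len + 1)) => φ (stdSimplex.map s a)) :
    ((SSet.boundary n : (SSet.stdSimplex.obj (SimplexCategory.mk n) : SSet.{0}).Subcomplex) :
      SSet.{0}) ⟶ Sg X where
  app m := ↾ fun s => ofC ⟨fun a => φ (stdSimplex.map (SSet.stdSimplex.objEquiv s.1) a),
    hφ _ _ (by
      have h := s.2
      have h2 : ¬ Function.Surjective (SSet.stdSimplex.asOrderHom s.1) := h
      simp only [Function.Surjective, not_forall] at h2
      obtain ⟨j, hj⟩ := h2
      exact ⟨j, fun i hi => hj ⟨i, hi⟩⟩)⟩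
  naturality m m' f := by
    ext s
    apply toC_ext
    intro a
    change φ (stdSimplex.map (SSet.stdSimplex.objEquiv _) a) =
      φ (stdSimplex.map (SSet.stdSimplex.objEquiv s.1) (stdSimplex.map f.unop a))
    rw [stdSimplex.map_comp_apply]
    rfl

theorem kk_sub (k m : ℕ) (h : m ≤ k) : Subsingleton ((KK k).obj (op (SimplexCategory.mk m))) := by
  have key : ∀ (c : (KK k).obj (op (SimplexCategory.mk m)))
      (w : Sx (SSet.stdSimplex.obj (SimplexCategory.mk m)) (k + 1)), c.1 w = 0 := by
    intro c w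
    have hni : ¬ Function.Injective (SSet.stdSimplex.objEquiv w).toOrderHom := by
      intro hi
      have h1 := Fintype.card_le_of_injective _ hi
      simp only [Fintype.card_fin] at h1
      change k + 1 + 1 ≤ m + 1 at h1
      omega
    obtain ⟨i, θ', hθ⟩ := SimplexCategory.eq_σ_comp_of_not_injective _ hni
    have h2 := c.2.2 i (SSet.stdSimplex.objEquiv.symm θ')
    refine Eq.trans ?_ h2
    refine congrArg c.1 ?_
    rw [← Equiv.symm_apply_apply SSet.stdSimplex.objEquiv w, hθ]
    rfl
  constructor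
  intro c c'
  apply Subtype.ext
  funext w
  rw [key c w, key c' w]

theorem bd_unique (k n : ℕ) (h : n ≤ k + 1)
    (u v : ((SSet.boundary n :
      (SSet.stdSimplex.obj (SimplexCategory.mk n) : SSet.{0}).Subcomplex) : SSet.{0}) ⟶ KK k) :
    u = v := by
  obtain _ | n := n
  · exact SSet.boundary.hom_ext₀
  · apply SSet.boundary.hom_ext
    intro i
    apply SSet.yonedaEquiv.injective
    have := kk_sub k n (by omega)
    exact Subsingleton.elim _ _

/-- The lifting lemma. -/
theorem lift_simplex {k n : ℕ} (hn : n ≤ k + 1) (p : Sg X ⟶ KK k) (hp : TrivFib p)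
    (φ : stdSimplex ℝ (Fin (n + 1)) → X)
    (hφ : ∀ (m : SimplexCategory) (s : m ⟶ SimplexCategory.mk n), (∃ j, ∀ i, s i ≠ j) →
      Continuous fun a : stdSimplex ℝ (Fin (m.len + 1)) => φ (stdSimplex.map s a))
    (κ : (KK k).obj (op (SimplexCategory.mk n))) :
    ∃ Ψ : C(stdSimplex ℝ (Fin (n + 1)), X), (∀ a, (∃ j, a j = 0) → Ψ a = φ a) ∧
      p.app (op (SimplexCategory.mk n)) (ofC Ψ) = κ := by
  have hl := hp _ (SSet.modelCategoryQuillen.boundary_ι_mem_I n)
  have sq : CommSq (bdMap φ hφ) (SSet.boundary n).ι p (SSet.yonedaEquiv.symm κ) :=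
    ⟨bd_unique k n hn _ _⟩
  have hL := hl.sq_hasLift sq
  obtain ⟨⟨l, h1, h2⟩⟩ := hL
  refine ⟨toC (l.app (op (SimplexCategory.mk n)) (SSet.stdSimplex.objEquiv.symm (𝟙 _))), ?_, ?_⟩
  · rintro a ⟨j, hj⟩
    obtain _ | n := n
    · exfalso
      have := a.2.2
      have hj0 : j = 0 := by
        apply Fin.ext
        have := j.2
        simp only [Fin.val_zero]
        omega
      subst hj0
      rw [Fin.sum_univ_one] at this
      have h3 : a 0 = 1 := this
      rw [h3] at hj
      exact one_ne_zero hj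
    · have hsum : ∑ i : Fin (n + 1), a (j.succAbove i) = 1 := by
        have h4 : ∑ i, a i = 1 := a.2.2
        rw [Fin.sum_univ_succAbove _ j, hj, zero_add] at h4
        exact h4
      let a' : stdSimplex ℝ (Fin (n + 1)) := ⟨fun i => a (j.succAbove i), fun i => a.2.1 _, hsum⟩
      have ha : stdSimplex.map (SimplexCategory.δ j) a' = a := by
        ext l
        rw [map_apply]
        rcases Fin.eq_self_or_eq_succAbove j l with rfl | ⟨i, rfl⟩
        · rw [hj]
          apply Finset.sum_eq_zero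
          intro x hx
          exact absurd (Finset.mem_filter.1 hx).2 (Fin.succAbove_ne _ _)
        · rw [Finset.sum_eq_single i]
          · rfl
          · intro b hb hbi
            exact absurd (Fin.succAbove_right_injective (Finset.mem_filter.1 hb).2) hbi
          · intro hi
            exact (hi (Finset.mem_filter.2 ⟨Finset.mem_univ i, rfl⟩)).elim
      have hs : SSet.stdSimplex.objEquiv.symm (SimplexCategory.δ j) ∈
          (SSet.boundary (n + 1) :
            (SSet.stdSimplex.obj (SimplexCategory.mk (n + 1)) : SSet.{0}).Subcomplex).obj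
              (op (SimplexCategory.mk n)) := by
        rw [SSet.boundary_obj_eq_univ n (n + 1) (Nat.lt_succ_self n)]
        exact Set.mem_univ _
      have h3 := ConcreteCategory.congr_hom (congr_app h1 (op (SimplexCategory.mk n)))
        ⟨SSet.stdSimplex.objEquiv.symm (SimplexCategory.δ j), hs⟩
      have h4 : toC (l.app (op (SimplexCategory.mk n))
          (SSet.stdSimplex.objEquiv.symm (SimplexCategory.δ j))) a' =
          φ (stdSimplex.map (SimplexCategory.δ j) a') :=
        DFunLike.congr_fun (congrArg toC h3) a'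
      have h5 : l.app (op (SimplexCategory.mk n))
          (SSet.stdSimplex.objEquiv.symm (SimplexCategory.δ j)) =
          (Sg X).map (SimplexCategory.δ j).op
            (l.app (op (SimplexCategory.mk (n + 1))) (SSet.stdSimplex.objEquiv.symm (𝟙 _))) := by
        have h6 := ConcreteCategory.congr_hom (l.naturality (SimplexCategory.δ j).op)
          (SSet.stdSimplex.objEquiv.symm (𝟙 _))
        refine Eq.trans ?_ h6
        rfl
      rw [h5] at h4
      have h7 : toC (l.app (op (SimplexCategory.mk (n + 1)))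
          (SSet.stdSimplex.objEquiv.symm (𝟙 _))) (stdSimplex.map (SimplexCategory.δ j) a') =
          φ (stdSimplex.map (SimplexCategory.δ j) a') := h4
      rw [ha] at h7
      exact h7
  · rw [ofC_toC]
    have h3 := ConcreteCategory.congr_hom (congr_app h2 (op (SimplexCategory.mk n)))
      (SSet.stdSimplex.objEquiv.symm (𝟙 _))
    refine Eq.trans h3 ?_
    change (KK k).map (𝟙 _) κ = κ
    rw [(KK k).map_id]
    rfl

/-! ### Points of the simplices -/

/-- the point `(1 - t, t)` -/
noncomputable def pt2 (t : unitInterval) : stdSimplex ℝ (Fin 2) :=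
  ⟨![1 - t.1, t.1], by
    refine ⟨fun i => ?_, ?_⟩
    · fin_cases i
      · simpa using t.2.2
      · simpa using t.2.1
    · simp⟩

theorem pt2_cont : Continuous pt2 := by
  refine Continuous.subtype_mk (continuous_pi fun i => ?_) _
  fin_cases i
  · simp only [Fin.zero_eta, Matrix.cons_val_zero]; fun_prop
  · simp only [Fin.mk_one, Matrix.cons_val_one]; fun_prop

/-- the point `(1 - t, t (1 - u), t u)` -/
noncomputable def pt3 (u t : unitInterval) : stdSimplex ℝ (Fin 3) :=
  ⟨![1 - t.1, t.1 * (1 - u.1), t.1 * u.1], by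
    have h1 := t.2.1
    have h2 := t.2.2
    have h3 := u.2.1
    have h4 := u.2.2
    refine ⟨fun i => ?_, ?_⟩
    · fin_cases i
      · simpa using h2
      · simpa using mul_nonneg h1 (sub_nonneg.2 h4)
      · simpa using mul_nonneg h1 h3
    · rw [Fin.sum_univ_three]
      simp
      ring⟩

theorem pt3_cont : Continuous fun q : unitInterval × unitInterval => pt3 q.1 q.2 := by
  refine Continuous.subtype_mk (continuous_pi fun i => ?_) _
  fin_cases i
  · simp only [Fin.zero_eta, Matrix.cons_val_zero]; fun_prop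
  · simp only [Fin.mk_one, Matrix.cons_val_one]; fun_prop
  · simp only [Fin.reduceFinMk, Matrix.cons_val]; fun_prop

theorem pt2_0 (t : unitInterval) : pt2 t 0 = 1 - t.1 := rfl
theorem pt2_1 (t : unitInterval) : pt2 t 1 = t.1 := rfl
theorem pt3_0 (u t : unitInterval) : pt3 u t 0 = 1 - t.1 := rfl
theorem pt3_1 (u t : unitInterval) : pt3 u t 1 = t.1 * (1 - u.1) := rfl
theorem pt3_2 (u t : unitInterval) : pt3 u t 2 = t.1 * u.1 := rfl

theorem sum2 (a : stdSimplex ℝ (Fin 2)) : a 0 + a 1 = 1 := by
  have h : ∑ i, a i = 1 := a.2.2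
  rwa [Fin.sum_univ_two] at h

theorem sum3 (a : stdSimplex ℝ (Fin 3)) : a 0 + a 1 + a 2 = 1 := by
  have h : ∑ i, a i = 1 := a.2.2
  rwa [Fin.sum_univ_three] at h

/-- a function with two values on the ends of the one-simplex -/
theorem exists_one {k : ℕ} (p : Sg X ⟶ KK k) (hp : TrivFib p) (x y : X)
    (κ : (KK k).obj (op (SimplexCategory.mk 1))) :
    ∃ Ψ : C(stdSimplex ℝ (Fin 2), X), (∀ a, a 1 = 0 → Ψ a = x) ∧ (∀ a, a 0 = 0 → Ψ a = y) ∧
      p.app (op (SimplexCategory.mk 1)) (ofC Ψ) = κ := by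
  classical
  obtain ⟨Ψ, h1, h2⟩ := lift_simplex (n := 1) (by omega) p hp
    (fun a => if a 1 = 0 then x else y) (by
      rintro m s ⟨j, hj⟩
      have hz : ∀ a : stdSimplex ℝ (Fin (m.len + 1)), stdSimplex.map s a j = 0 :=
        fun a => map_zero_of s a j hj
      fin_cases j
      · have e : (fun a : stdSimplex ℝ (Fin (m.len + 1)) =>
            if stdSimplex.map s a 1 = 0 then x else y) = fun _ => y := by
          funext a
          have h0 : stdSimplex.map s a 0 = 0 := hz a
          have h1 := sum2 (stdSimplex.map s a)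
          rw [h0, zero_add] at h1
          rw [if_neg]
          rw [h1]
          exact one_ne_zero
        rw [e]
        exact continuous_const
      · have e : (fun a : stdSimplex ℝ (Fin (m.len + 1)) =>
            if stdSimplex.map s a 1 = 0 then x else y) = fun _ => x := by
          funext a
          exact if_pos (hz a)
        rw [e]
        exact continuous_const) κ
  refine ⟨Ψ, fun a ha => ?_, fun a ha => ?_, h2⟩
  · rw [h1 a ⟨1, ha⟩]
    exact if_pos ha
  · rw [h1 a ⟨0, ha⟩]
    refine if_neg ?_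
    have h1 := sum2 a
    rw [ha, zero_add] at h1
    rw [h1]
    exact one_ne_zero

/-- the zero cocycle -/
def zc (k : ℕ) (m : SimplexCategoryᵒᵖ) : (KK k).obj m :=
  ⟨fun _ => 0, by
    constructor
    · funext z
      exact Finset.sum_eq_zero fun _ _ => rfl
    · intro i s
      rfl⟩

theorem exists_point {k : ℕ} (p : Sg X ⟶ KK k) (hp : TrivFib p) : Nonempty X := by
  have hl := hp _ (SSet.modelCategoryQuillen.boundary_ι_mem_I 0)
  have hF : ∀ (m : SimplexCategoryᵒᵖ) (s : ((SSet.boundary 0 :
      (SSet.stdSimplex.obj (SimplexCategory.mk 0) : SSet.{0}).Subcomplex) : SSet.{0}).obj m),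
      False := by
    intro m s
    have h : ¬ Function.Surjective (SSet.stdSimplex.asOrderHom s.1) := s.2
    apply h
    intro j
    refine ⟨0, ?_⟩
    apply Fin.ext
    have h1 := j.2
    have h2 := (SSet.stdSimplex.asOrderHom s.1 0).2
    change (SSet.stdSimplex.asOrderHom s.1 0).1 < 0 + 1 at h2
    omega
  let u : ((SSet.boundary 0 :
      (SSet.stdSimplex.obj (SimplexCategory.mk 0) : SSet.{0}).Subcomplex) : SSet.{0}) ⟶ Sg X :=
    { app := fun m => ↾ fun s => (hF m s).elim
      naturality := fun m m' f => by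
        ext s
        exact (hF m s).elim }
  have sq : CommSq u (SSet.boundary 0).ι p
    (SSet.yonedaEquiv.symm (zc k (op (SimplexCategory.mk 0)))) := ⟨SSet.boundary.hom_ext₀⟩
  have hL := hl.sq_hasLift sq
  obtain ⟨⟨l, h1, h2⟩⟩ := hL
  exact ⟨toC (l.app (op (SimplexCategory.mk 0)) (SSet.stdSimplex.objEquiv.symm (𝟙 _)))
    (stdSimplex.vertex 0)⟩

theorem pathConn {k : ℕ} (p : Sg X ⟶ KK k) (hp : TrivFib p) : PathConnectedSpace X := by
  refine ⟨exists_point p hp, fun x y => ?_⟩
  obtain ⟨Ψ, h1, h2, -⟩ := exists_one p hp x y (zc k _)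
  refine ⟨⟨⟨fun t => Ψ (pt2 t), Ψ.continuous.comp pt2_cont⟩, ?_, ?_⟩⟩
  · exact h1 _ (by rw [pt2_1]; rfl)
  · exact h2 _ (by rw [pt2_0]; simp)

theorem s_SC1 : S_SC1 := by
  classical
  intro X _ p hp
  rw [simply_connected_iff_paths_homotopic']
  refine ⟨pathConn p hp, fun {x y} γ γ' => ?_⟩
  let φ : stdSimplex ℝ (Fin 3) → X := fun a =>
    if a 2 = 0 then γ.extend (a 1) else if a 1 = 0 then γ'.extend (a 2) else y
  have f2 : ∀ a : stdSimplex ℝ (Fin 3), a 2 = 0 → φ a = γ.extend (a 1) := fun a h => if_pos h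
  have f1 : ∀ a : stdSimplex ℝ (Fin 3), a 1 = 0 → φ a = γ'.extend (a 2) := by
    intro a h
    by_cases h2 : a 2 = 0
    · rw [f2 a h2, h, h2]
      simp
    · exact (if_neg h2).trans (if_pos h)
  have f0 : ∀ a : stdSimplex ℝ (Fin 3), a 0 = 0 → φ a = y := by
    intro a h
    have hs := sum3 a
    rw [h, zero_add] at hs
    by_cases h2 : a 2 = 0
    · rw [f2 a h2]
      rw [h2, add_zero] at hs
      rw [hs]
      simp
    · by_cases h1 : a 1 = 0
      · rw [f1 a h1]
        rw [h1, zero_add] at hs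
        rw [hs]
        simp
      · exact (if_neg h2).trans (if_neg h1)
  obtain ⟨Ψ, h1, -⟩ := lift_simplex (n := 2) (by omega) p hp φ (by
    rintro m s ⟨j, hj⟩
    have hz : ∀ a : stdSimplex ℝ (Fin (m.len + 1)), stdSimplex.map s a j = 0 :=
      fun a => map_zero_of s a j hj
    have hc : ∀ l : Fin 3, Continuous fun a : stdSimplex ℝ (Fin (m.len + 1)) =>
        (stdSimplex.map s a : stdSimplex ℝ (Fin 3)) l := by
      intro l
      exact (continuous_apply l).comp
        (continuous_subtype_val.comp (stdSimplex.continuous_map (S := ℝ) s))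
    fin_cases j
    · have e : (fun a : stdSimplex ℝ (Fin (m.len + 1)) => φ (stdSimplex.map s a)) =
          fun _ => y := by
        funext a
        exact f0 _ (hz a)
      rw [e]
      exact continuous_const
    · have e : (fun a : stdSimplex ℝ (Fin (m.len + 1)) => φ (stdSimplex.map s a)) =
          fun a => γ'.extend ((stdSimplex.map s a : stdSimplex ℝ (Fin 3)) 2) := by
        funext a
        exact f1 _ (hz a)
      rw [e]
      exact γ'.continuous_extend.comp (hc 2)
    · have e : (fun a : stdSimplex ℝ (Fin (m.len + 1)) => φ (stdSimplex.map s a)) =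
          fun a => γ.extend ((stdSimplex.map s a : stdSimplex ℝ (Fin 3)) 1) := by
        funext a
        exact f2 _ (hz a)
      rw [e]
      exact γ.continuous_extend.comp (hc 1)) (zc 1 _)
  refine ⟨{ toFun := fun q => Ψ (pt3 q.1 q.2)
            continuous_toFun := Ψ.continuous.comp pt3_cont
            map_zero_left := fun t => ?_
            map_one_left := fun t => ?_
            prop' := fun u t ht => ?_ }⟩
  · have e2 : pt3 0 t 2 = 0 := by rw [pt3_2]; simp
    change Ψ (pt3 0 t) = γ t
    rw [h1 _ ⟨2, e2⟩, f2 _ e2, pt3_1]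
    simp
  · have e1 : pt3 1 t 1 = 0 := by rw [pt3_1]; simp
    change Ψ (pt3 1 t) = γ' t
    rw [h1 _ ⟨1, e1⟩, f1 _ e1, pt3_2]
    simp
  · change Ψ (pt3 u t) = γ t
    rcases ht with rfl | ht
    · have e2 : pt3 u 0 2 = 0 := by rw [pt3_2]; simp
      rw [h1 _ ⟨2, e2⟩, f2 _ e2, pt3_1]
      simp
    · have ht : t = 1 := ht
      subst ht
      have e0 : pt3 u 1 0 = 0 := by rw [pt3_0]; simp
      rw [h1 _ ⟨0, e0⟩, f0 _ e0]
      simp

/-! ### The first case -/

theorem dl_dl0 {Z : SSet.{0}} (β : Sx Z 0 → ZMod 2) : dl (dl β) = 0 := by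
  funext z
  have i1 : SimplicialObject.δ Z 0 (SimplicialObject.δ Z 1 z) =
      SimplicialObject.δ Z 0 (SimplicialObject.δ Z 0 z) :=
    ConcreteCategory.congr_hom (SimplicialObject.δ_comp_δ Z (i := (0 : Fin 2)) (j := 0) le_rfl) z
  have i2 : SimplicialObject.δ Z 0 (SimplicialObject.δ Z 2 z) =
      SimplicialObject.δ Z 1 (SimplicialObject.δ Z 0 z) :=
    ConcreteCategory.congr_hom (SimplicialObject.δ_comp_δ Z (i := (0 : Fin 2)) (j := 1)
      (by decide)) z
  have i3 : SimplicialObject.δ Z 1 (SimplicialObject.δ Z 2 z) =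
      SimplicialObject.δ Z 1 (SimplicialObject.δ Z 1 z) :=
    ConcreteCategory.congr_hom (SimplicialObject.δ_comp_δ Z (i := (1 : Fin 2)) (j := 1) le_rfl) z
  change ∑ i : Fin 3, ∑ j : Fin 2, β (SimplicialObject.δ Z j (SimplicialObject.δ Z i z)) = 0
  rw [Fin.sum_univ_three, Fin.sum_univ_two, Fin.sum_univ_two, Fin.sum_univ_two, i1, i2, i3]
  have key : ∀ a b c : ZMod 2, a + b + (a + c) + (b + c) = 0 := by decide
  exact key _ _ _

/-- the cochain with the value `0` at the first vertex and `1` at the second -/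
def b0 : Sx (SSet.stdSimplex.obj (SimplexCategory.mk 1)) 0 → ZMod 2 :=
  fun v => if (SSet.stdSimplex.objEquiv v) 0 = 0 then 0 else 1

theorem NZ_b0 : NZ (dl b0) := by
  refine ⟨dl_dl0 _, fun i s => ?_⟩
  have hi : i = 0 := Fin.ext (by have := i.2; simp only [Fin.val_zero]; omega)
  subst hi
  change ∑ j : Fin 2, b0 (SimplicialObject.δ (SSet.stdSimplex.obj (SimplexCategory.mk 1) :
    SSet.{0}) j (SimplicialObject.σ (SSet.stdSimplex.obj (SimplexCategory.mk 1) :
    SSet.{0}) 0 s)) = 0
  have i1 : SimplicialObject.δ (SSet.stdSimplex.obj (SimplexCategory.mk 1) : SSet.{0}) 0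
      (SimplicialObject.σ (SSet.stdSimplex.obj (SimplexCategory.mk 1) : SSet.{0}) 0 s) = s :=
    ConcreteCategory.congr_hom (SimplicialObject.δ_comp_σ_self
      (SSet.stdSimplex.obj (SimplexCategory.mk 1) : SSet.{0}) (i := (0 : Fin 1))) s
  have i2 : SimplicialObject.δ (SSet.stdSimplex.obj (SimplexCategory.mk 1) : SSet.{0}) 1
      (SimplicialObject.σ (SSet.stdSimplex.obj (SimplexCategory.mk 1) : SSet.{0}) 0 s) = s :=
    ConcreteCategory.congr_hom (SimplicialObject.δ_comp_σ_succ
      (SSet.stdSimplex.obj (SimplexCategory.mk 1) : SSet.{0}) (i := (0 : Fin 1))) s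
  rw [Fin.sum_univ_two, i1, i2]
  have key : ∀ a : ZMod 2, a + a = 0 := by decide
  exact key _

theorem exists_gen : ∃ c : (KK 0).obj (op (SimplexCategory.mk 1)),
    c.1 (SSet.stdSimplex.objEquiv.symm (𝟙 _)) = 1 := by
  obtain ⟨κ, hκ⟩ := (Pool.Agent.L7h75.HS.s_REP 0
    (SSet.stdSimplex.obj (SimplexCategory.mk 1))).2.2 _ NZ_b0
  refine ⟨κ.app _ (SSet.stdSimplex.objEquiv.symm (𝟙 _)), ?_⟩
  refine (congrFun hκ (SSet.stdSimplex.objEquiv.symm (𝟙 _))).trans ?_
  change ∑ j : Fin 2, b0 (SimplicialObject.δ (SSet.stdSimplex.obj (SimplexCategory.mk 1) :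
    SSet.{0}) j (SSet.stdSimplex.objEquiv.symm (𝟙 _))) = 1
  rw [Fin.sum_univ_two]
  decide

theorem d_apply (b : stdSimplex ℝ (Fin 2)) (i l : Fin 3) :
    stdSimplex.map (SimplexCategory.δ i) b l =
      ∑ x : Fin 2, if i.succAbove x = l then b x else 0 := by
  rw [map_apply, Finset.sum_filter]
  rfl

/-- a coordinate as a point of the unit interval -/
noncomputable def c2 (a : stdSimplex ℝ (Fin 3)) : unitInterval :=
  ⟨a 2, a.2.1 2, stdSimplex.le_one a 2⟩

/-- the sum of the last two coordinates -/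
noncomputable def c12 (a : stdSimplex ℝ (Fin 3)) : unitInterval :=
  ⟨a 1 + a 2, add_nonneg (a.2.1 1) (a.2.1 2), by
    have h := sum3 a
    have h0 : 0 ≤ a 0 := a.2.1 0
    linarith⟩

theorem co_cont (l : Fin 3) : Continuous fun a : stdSimplex ℝ (Fin 3) => a l :=
  (continuous_apply l).comp continuous_subtype_val

theorem c2_cont : Continuous c2 := (co_cont 2).subtype_mk _

theorem c12_cont : Continuous c12 := ((co_cont 1).add (co_cont 2)).subtype_mk _

theorem s_SC0 : S_SC0 := by
  intro X _ p hp hsc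
  rw [simply_connected_iff_paths_homotopic'] at hsc
  obtain ⟨-, hsc⟩ := hsc
  obtain ⟨x⟩ := exists_point p hp
  obtain ⟨c, hc⟩ := exists_gen
  obtain ⟨Ψ, h1, h0, hΨ⟩ := exists_one p hp x x c
  set e := ev p with he
  have hNZ : NZ e := (Pool.Agent.L7h75.HS.s_REP 0 _).1 p
  have eΨ : e (ofC Ψ) = 1 := by
    rw [← hc, ← hΨ]
    rfl
  have econst : e (ofC (ContinuousMap.const _ x)) = 0 := by
    have := hNZ.2 0 (ofC (ContinuousMap.const _ x))
    refine Eq.trans ?_ this
    refine congrArg e ?_
    apply toC_ext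
    intro a
    rfl
  -- the loop and the homotopy
  let γ : Path x x := ⟨⟨fun t => Ψ (pt2 t), Ψ.continuous.comp pt2_cont⟩,
    h1 _ (by rw [pt2_1]; rfl), h0 _ (by rw [pt2_0]; simp)⟩
  obtain ⟨F⟩ := hsc γ (Path.refl x)
  have F0 : ∀ t, F (0, t) = Ψ (pt2 t) := fun t => F.apply_zero t
  have F1 : ∀ t, F (1, t) = x := fun t => F.apply_one t
  have Fs : ∀ u, F (u, 0) = x := fun u => Path.Homotopy.source F u
  have Ft : ∀ u, F (u, 1) = x := fun u => Path.Homotopy.target F u
  have hcoc : ∀ σ : C(stdSimplex ℝ (Fin 3), X),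
      e (SimplicialObject.δ (Sg X) 0 (ofC (m := op (SimplexCategory.mk 2)) σ)) +
      e (SimplicialObject.δ (Sg X) 1 (ofC (m := op (SimplexCategory.mk 2)) σ)) +
      e (SimplicialObject.δ (Sg X) 2 (ofC (m := op (SimplexCategory.mk 2)) σ)) = 0 := by
    intro σ
    have := congrFun hNZ.1 (ofC (m := op (SimplexCategory.mk 2)) σ)
    change ∑ i : Fin 3, e (SimplicialObject.δ (Sg X) i _) = 0 at this
    rwa [Fin.sum_univ_three] at this
  let σ1 : C(stdSimplex ℝ (Fin 3), X) := ⟨fun a => F (c2 a, c12 a),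
    F.continuous.comp (c2_cont.prodMk c12_cont)⟩
  let σ2 : C(stdSimplex ℝ (Fin 3), X) := ⟨fun a => F (c12 a, c2 a),
    F.continuous.comp (c12_cont.prodMk c2_cont)⟩
  have a01 : ∀ b : stdSimplex ℝ (Fin 2), c12 (stdSimplex.map (SimplexCategory.δ 0) b) = 1 := by
    intro b
    apply Subtype.ext
    change stdSimplex.map (SimplexCategory.δ 0) b 1 + stdSimplex.map (SimplexCategory.δ 0) b 2 = 1
    rw [d_apply, d_apply, Fin.sum_univ_two, Fin.sum_univ_two, if_pos (by decide),
      if_neg (by decide), if_neg (by decide), if_pos (by decide)]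
    have := sum2 b
    linarith
  have a11 : ∀ b : stdSimplex ℝ (Fin 2), c12 (stdSimplex.map (SimplexCategory.δ 1) b) =
      c2 (stdSimplex.map (SimplexCategory.δ 1) b) := by
    intro b
    apply Subtype.ext
    change stdSimplex.map (SimplexCategory.δ 1) b 1 + stdSimplex.map (SimplexCategory.δ 1) b 2 =
      stdSimplex.map (SimplexCategory.δ 1) b 2
    rw [d_apply b 1 1, Fin.sum_univ_two, if_neg (by decide), if_neg (by decide)]
    ring
  have a22 : ∀ b : stdSimplex ℝ (Fin 2), c2 (stdSimplex.map (SimplexCategory.δ 2) b) = 0 := by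
    intro b
    apply Subtype.ext
    change stdSimplex.map (SimplexCategory.δ 2) b 2 = 0
    rw [d_apply, Fin.sum_univ_two, if_neg (by decide), if_neg (by decide)]
    ring
  have a21 : ∀ b : stdSimplex ℝ (Fin 2), pt2 (c12 (stdSimplex.map (SimplexCategory.δ 2) b)) =
      b := by
    intro b
    have h : stdSimplex.map (SimplexCategory.δ 2) b 1 +
        stdSimplex.map (SimplexCategory.δ 2) b 2 = b 1 := by
      rw [d_apply, d_apply, Fin.sum_univ_two, Fin.sum_univ_two, if_neg (by decide),
        if_pos (by decide), if_neg (by decide), if_neg (by decide)]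
      ring
    have hs := sum2 b
    ext l
    fin_cases l
    · change 1 - (stdSimplex.map (SimplexCategory.δ 2) b 1 +
        stdSimplex.map (SimplexCategory.δ 2) b 2) = b 0
      rw [h]
      linarith
    · exact h
  have s10 : SimplicialObject.δ (Sg X) 0 (ofC (m := op (SimplexCategory.mk 2)) σ1) =
      ofC (ContinuousMap.const _ x) := by
    apply toC_ext
    intro b
    change F (c2 (stdSimplex.map (SimplexCategory.δ 0) b),
      c12 (stdSimplex.map (SimplexCategory.δ 0) b)) = x
    rw [a01 b, Ft]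
  have s12 : SimplicialObject.δ (Sg X) 2 (ofC (m := op (SimplexCategory.mk 2)) σ1) =
      ofC Ψ := by
    apply toC_ext
    intro b
    change F (c2 (stdSimplex.map (SimplexCategory.δ 2) b),
      c12 (stdSimplex.map (SimplexCategory.δ 2) b)) = Ψ b
    rw [a22 b, F0, a21]
  have s11 : SimplicialObject.δ (Sg X) 1 (ofC (m := op (SimplexCategory.mk 2)) σ1) =
      SimplicialObject.δ (Sg X) 1 (ofC (m := op (SimplexCategory.mk 2)) σ2) := by
    apply toC_ext
    intro b
    change F (c2 (stdSimplex.map (SimplexCategory.δ 1) b),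
      c12 (stdSimplex.map (SimplexCategory.δ 1) b)) =
      F (c12 (stdSimplex.map (SimplexCategory.δ 1) b),
      c2 (stdSimplex.map (SimplexCategory.δ 1) b))
    rw [a11 b]
  have s20 : SimplicialObject.δ (Sg X) 0 (ofC (m := op (SimplexCategory.mk 2)) σ2) =
      ofC (ContinuousMap.const _ x) := by
    apply toC_ext
    intro b
    change F (c12 (stdSimplex.map (SimplexCategory.δ 0) b),
      c2 (stdSimplex.map (SimplexCategory.δ 0) b)) = x
    rw [a01 b, F1]
  have s22 : SimplicialObject.δ (Sg X) 2 (ofC (m := op (SimplexCategory.mk 2)) σ2) =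
      ofC (ContinuousMap.const _ x) := by
    apply toC_ext
    intro b
    change F (c12 (stdSimplex.map (SimplexCategory.δ 2) b),
      c2 (stdSimplex.map (SimplexCategory.δ 2) b)) = x
    rw [a22 b, Fs]
  have r1 := hcoc σ1
  have r2 := hcoc σ2
  rw [s10, s12, s11, econst, eΨ] at r1
  rw [s20, s22, econst] at r2
  generalize e (SimplicialObject.δ (Sg X) 1 (ofC (m := op (SimplexCategory.mk 2)) σ2)) = w at r1 r2
  revert r1 r2
  revert w
  decide

end Sing

end Pool.Agent.L7h34.HS
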